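import Mathlib

/-!
A counterexample to the statement that the smallest local nonglobal minimum value of a
Celis-Dennis-Tapia subproblem is the second smallest value of the objective over the KKT points.
-/

namespace Pool.Agent.Results.MP_2e17cf_an.KKTBelowLocal

open Matrix

/-- An instance of the Celis-Dennis-Tapia subproblem in dimension `n`: a symmetric matrix `Q`,
a vector `c`, and two ellipsoidal constraints given by positive definite matrices `A i`,
vectors `b i` and numbers `d i`. -/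
structure CDT (n : ℕ) where
  Q : Matrix (Fin n) (Fin n) ℝ
  c : Fin n → ℝ
  A : Fin 2 → Matrix (Fin n) (Fin n) ℝ
  b : Fin 2 → Fin n → ℝ
  d : Fin 2 → ℝ
  symm_Q : Q.IsSymm
  posDef_A : ∀ i, (A i).PosDef

variable {n : ℕ}

/-- The objective `f(x) = (1/2) xᵀ Q x + cᵀ x`. -/
noncomputable def CDT.f (P : CDT n) (x : Fin n → ℝ) : ℝ :=
  (1 / 2) * (x ⬝ᵥ P.Q *ᵥ x) + P.c ⬝ᵥ x

/-- The constraint functions `g_i(x) = xᵀ A_i x + 2 b_iᵀ x + d_i`. -/
noncomputable def CDT.g (P : CDT n) (i : Fin 2) (x : Fin n → ℝ) : ℝ :=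
  x ⬝ᵥ P.A i *ᵥ x + 2 * (P.b i ⬝ᵥ x) + P.d i

/-- The feasible set `F = E_1 ∩ E_2`. -/
def CDT.F (P : CDT n) : Set (Fin n → ℝ) := {x | ∀ i, P.g i x ≤ 0}

/-- KKT points: feasible `x` with multipliers `μ i ≥ 0`,
`Q x + c + Σ μ_i (2 A_i x + 2 b_i) = 0` and `μ_i g_i(x) = 0`. -/
def CDT.IsKKT (P : CDT n) (x : Fin n → ℝ) : Prop :=
  x ∈ P.F ∧ ∃ μ : Fin 2 → ℝ, (∀ i, 0 ≤ μ i) ∧ (∀ i, μ i * P.g i x = 0) ∧
    P.Q *ᵥ x + P.c + ∑ i, μ i • (2 • (P.A i *ᵥ x) + 2 • P.b i) = 0

/-- Global minimizers of `f` over `F`. -/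
def CDT.IsGlobalMinimizer (P : CDT n) (x : Fin n → ℝ) : Prop :=
  x ∈ P.F ∧ ∀ y ∈ P.F, P.f x ≤ P.f y

/-- Local nonglobal minimizers: feasible points that minimize `f` over the feasible points
near them, but are not global minimizers. -/
def CDT.IsLocalNonglobalMinimizer (P : CDT n) (x : Fin n → ℝ) : Prop :=
  x ∈ P.F ∧ IsLocalMinOn P.f P.F x ∧ ¬ P.IsGlobalMinimizer x

/-- The instance used. -/
noncomputable def inst : CDT 2 where
  Q := Matrix.diagonal ![-48, -80]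
  c := ![0, -3]
  A := ![Matrix.diagonal ![9, 16], Matrix.diagonal ![16, 9]]
  b := 0
  d := fun _ => -25
  symm_Q := Matrix.isSymm_diagonal _
  posDef_A := by
    intro i
    fin_cases i
    · show (Matrix.diagonal ![(9 : ℝ), 16]).PosDef
      rw [Matrix.posDef_diagonal_iff]
      intro j; fin_cases j <;> simp
    · show (Matrix.diagonal ![(16 : ℝ), 9]).PosDef
      rw [Matrix.posDef_diagonal_iff]
      intro j; fin_cases j <;> simp

theorem inst_f (x : Fin 2 → ℝ) : inst.f x = -24 * x 0 ^ 2 - 40 * x 1 ^ 2 - 3 * x 1 := by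
  simp [CDT.f, inst, dotProduct, Fin.sum_univ_two, Matrix.mulVec_diagonal]
  ring

theorem inst_g0 (x : Fin 2 → ℝ) : inst.g 0 x = 9 * x 0 ^ 2 + 16 * x 1 ^ 2 - 25 := by
  simp [CDT.g, inst, dotProduct, Fin.sum_univ_two, Matrix.mulVec_diagonal]
  ring

theorem inst_g1 (x : Fin 2 → ℝ) : inst.g 1 x = 16 * x 0 ^ 2 + 9 * x 1 ^ 2 - 25 := by
  simp [CDT.g, inst, dotProduct, Fin.sum_univ_two, Matrix.mulVec_diagonal]
  ring

theorem mem_F (x : Fin 2 → ℝ) : x ∈ inst.F ↔
    9 * x 0 ^ 2 + 16 * x 1 ^ 2 ≤ 25 ∧ 16 * x 0 ^ 2 + 9 * x 1 ^ 2 ≤ 25 := by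
  simp only [CDT.F, Set.mem_ofPred_eq, Fin.forall_fin_two, inst_g0, inst_g1]
  constructor
  · rintro ⟨h1, h2⟩; constructor <;> linarith
  · rintro ⟨h1, h2⟩; constructor <;> linarith

/-- The global lower bound. -/
theorem low_bd (a b : ℝ) (h1 : 9 * a ^ 2 + 16 * b ^ 2 ≤ 25) (h2 : 16 * a ^ 2 + 9 * b ^ 2 ≤ 25) :
    -67 ≤ -24 * a ^ 2 - 40 * b ^ 2 - 3 * b := by
  rcases le_total b 1 with hb | hb
  · nlinarith
  · nlinarith

theorem low_bd_neg (a b : ℝ) (h1 : 9 * a ^ 2 + 16 * b ^ 2 ≤ 25)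
    (h2 : 16 * a ^ 2 + 9 * b ^ 2 ≤ 25) (hb : b ≤ 0) :
    -61 ≤ -24 * a ^ 2 - 40 * b ^ 2 - 3 * b := by
  rcases le_total b (-1) with hb | hb
  · nlinarith
  · nlinarith

open Filter Topology

theorem along (z : Fin 2 → ℝ) (hmin : IsLocalMinOn inst.f inst.F z) (u v : ℝ → ℝ)
    (hu : ContinuousAt u 0) (hv : ContinuousAt v 0) (hu0 : u 0 = z 0) (hv0 : v 0 = z 1)
    (hF : ∀ᶠ s in 𝓝 (0 : ℝ), 9 * u s ^ 2 + 16 * v s ^ 2 ≤ 25 ∧ 16 * u s ^ 2 + 9 * v s ^ 2 ≤ 25) :
    ∀ᶠ s in 𝓝 (0 : ℝ), -24 * z 0 ^ 2 - 40 * z 1 ^ 2 - 3 * z 1 ≤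
      -24 * u s ^ 2 - 40 * v s ^ 2 - 3 * v s := by
  have h0 : (![u 0, v 0] : Fin 2 → ℝ) = z := by
    ext i; fin_cases i <;> simp [hu0, hv0]
  have hc : ContinuousAt (fun s => (![u s, v s] : Fin 2 → ℝ)) 0 := by
    rw [continuousAt_pi]
    intro i
    fin_cases i
    · simpa using hu
    · simpa using hv
  have ht : Tendsto (fun s => (![u s, v s] : Fin 2 → ℝ)) (𝓝 0) (𝓝[inst.F] z) := by
    rw [tendsto_nhdsWithin_iff]
    refine ⟨?_, ?_⟩
    · have := hc.tendsto
      simp only [h0] at this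
      exact this
    · filter_upwards [hF] with s hs
      rw [mem_F]
      simpa using hs
  have := ht.eventually hmin
  filter_upwards [this] with s hs
  rw [inst_f, inst_f] at hs
  simpa using hs

/-- From an eventual statement near `0`, a small positive number `s` that works with `-s`. -/
theorem small {p : ℝ → Prop} (h : ∀ᶠ s in 𝓝 (0 : ℝ), p s) : ∃ s : ℝ, 0 < s ∧ s < 1 / 10 ∧ p s ∧ p (-s) := by
  obtain ⟨e, he, hp⟩ := Metric.eventually_nhds_iff.1 h
  refine ⟨min (e / 2) (1 / 20), by positivity, ?_, ?_, ?_⟩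
  · exact lt_of_le_of_lt (min_le_right _ _) (by norm_num)
  · apply hp
    rw [Real.dist_eq, sub_zero, abs_of_pos (by positivity)]
    exact lt_of_le_of_lt (min_le_left _ _) (by linarith)
  · apply hp
    rw [Real.dist_eq, sub_zero, abs_neg, abs_of_pos (by positivity)]
    exact lt_of_le_of_lt (min_le_left _ _) (by linarith)

/-- At a local minimizer both constraints are active. -/
theorem active (z : Fin 2 → ℝ) (hz : z ∈ inst.F) (hmin : IsLocalMinOn inst.f inst.F z) :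
    9 * z 0 ^ 2 + 16 * z 1 ^ 2 = 25 ∧ 16 * z 0 ^ 2 + 9 * z 1 ^ 2 = 25 := by
  obtain ⟨a, ha⟩ : ∃ a, a = z 0 := ⟨_, rfl⟩
  obtain ⟨b, hb⟩ : ∃ b, b = z 1 := ⟨_, rfl⟩
  obtain ⟨h1, h2⟩ := (mem_F z).1 hz
  rw [← ha, ← hb] at h1 h2 ⊢
  obtain ⟨σ, hσ, hσa⟩ : ∃ σ : ℝ, (σ = 1 ∨ σ = -1) ∧ a = σ * |a| := by
    rcases le_total 0 a with h | h
    · exact ⟨1, Or.inl rfl, by rw [abs_of_nonneg h]; ring⟩
    · exact ⟨-1, Or.inr rfl, by rw [abs_of_nonpos h]; ring⟩
  have hσ2 : σ ^ 2 = 1 := by rcases hσ with h | h <;> rw [h] <;> norm_num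
  by_cases e1 : 9 * a ^ 2 + 16 * b ^ 2 = 25
  · by_cases e2 : 16 * a ^ 2 + 9 * b ^ 2 = 25
    · exact ⟨e1, e2⟩
    · -- only the first constraint is active
      exfalso
      have h2' : 16 * a ^ 2 + 9 * b ^ 2 < 25 := lt_of_le_of_ne h2 e2
      have hb1 : 1 < b ^ 2 := by nlinarith
      -- direction of motion of `b`
      obtain ⟨τ, hτ, hτb⟩ : ∃ τ : ℝ, (τ = 1 ∨ τ = -1) ∧ 0 < τ * b := by
        rcases lt_trichotomy b 0 with h | h | h
        · exact ⟨-1, Or.inr rfl, by linarith⟩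
        · rw [h] at hb1; norm_num at hb1
        · exact ⟨1, Or.inl rfl, by linarith⟩
      have hτ2 : τ ^ 2 = 1 := by rcases hτ with h | h <;> rw [h] <;> norm_num
      have hτb1 : 1 < τ * b := by nlinarith
      have hval : Real.sqrt ((25 - 16 * b ^ 2) / 9) = |a| := by
        rw [show (25 - 16 * b ^ 2) / 9 = a ^ 2 by linarith, Real.sqrt_sq_eq_abs]
      have hcu : ContinuousAt (fun s : ℝ => σ * Real.sqrt ((25 - 16 * (b - τ * |s|) ^ 2) / 9)) 0 := by
        fun_prop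
      have hcv : ContinuousAt (fun s : ℝ => b - τ * |s|) 0 := by fun_prop
      have hu0 : (fun s : ℝ => σ * Real.sqrt ((25 - 16 * (b - τ * |s|) ^ 2) / 9)) 0 = z 0 := by
        simp only [abs_zero, mul_zero, sub_zero, hval]
        rw [← hσa]; exact ha
      have hv0 : (fun s : ℝ => b - τ * |s|) 0 = z 1 := by
        simp only [abs_zero, mul_zero, sub_zero]; exact hb
      have hnear : ∀ᶠ s in 𝓝 (0 : ℝ), 16 * (σ * Real.sqrt ((25 - 16 * (b - τ * |s|) ^ 2) / 9)) ^ 2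
          + 9 * (b - τ * |s|) ^ 2 < 25 := by
        have hc : ContinuousAt (fun s : ℝ => 16 * (σ * Real.sqrt ((25 - 16 * (b - τ * |s|) ^ 2) / 9)) ^ 2
          + 9 * (b - τ * |s|) ^ 2) 0 := by fun_prop
        apply hc.eventually_lt continuousAt_const
        simp only [abs_zero, mul_zero, sub_zero, hval]
        rw [← hσa]; exact h2'
      have hsm : ∀ᶠ s in 𝓝 (0 : ℝ), |s| < 1 := by
        have : ContinuousAt (fun s : ℝ => |s|) 0 := by fun_prop
        apply this.eventually_lt continuousAt_const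
        norm_num
      have hpos : ∀ s : ℝ, |s| < 1 → 0 ≤ (25 - 16 * (b - τ * |s|) ^ 2) / 9 := by
        intro s hs
        have h0 := abs_nonneg s
        have : (b - τ * |s|) ^ 2 ≤ b ^ 2 := by
          have e : (b - τ * |s|) ^ 2 = b ^ 2 - |s| * (2 * (τ * b) - |s|) := by
            have : (b - τ * |s|) ^ 2 = b ^ 2 - 2 * (τ * b) * |s| + τ ^ 2 * |s| ^ 2 := by ring
            rw [this, hτ2]; ring
          have : 0 ≤ |s| * (2 * (τ * b) - |s|) := mul_nonneg h0 (by linarith)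
          linarith
        have : 16 * b ^ 2 ≤ 25 := by nlinarith [sq_nonneg a]
        linarith
      have := along z hmin _ _ hcu hcv hu0 hv0 (by
        filter_upwards [hnear, hsm] with s hs hs1
        refine ⟨?_, hs.le⟩
        rw [mul_pow, hσ2, Real.sq_sqrt (hpos s hs1)]
        linarith)
      obtain ⟨s, hs0, hs1, ⟨hs2, hs3⟩, -⟩ := small (this.and hsm)
      rw [mul_pow, hσ2, Real.sq_sqrt (hpos s hs3), ← ha, ← hb] at hs2
      rw [abs_of_pos hs0] at hs2 hs3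
      rcases hτ with h | h
      · rw [h] at hs2 hτb1
        nlinarith
      · rw [h] at hs2 hτb1
        nlinarith
  · exfalso
    have h1' : 9 * a ^ 2 + 16 * b ^ 2 < 25 := lt_of_le_of_ne h1 e1
    by_cases e2 : 16 * a ^ 2 + 9 * b ^ 2 = 25
    · -- only the second constraint is active
      have hb1 : b ^ 2 < 1 := by nlinarith
      have hval : Real.sqrt ((25 - 9 * b ^ 2) / 16) = |a| := by
        rw [show (25 - 9 * b ^ 2) / 16 = a ^ 2 by linarith, Real.sqrt_sq_eq_abs]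
      have hcu : ContinuousAt (fun s : ℝ => σ * Real.sqrt ((25 - 9 * (b + s) ^ 2) / 16)) 0 := by
        fun_prop
      have hcv : ContinuousAt (fun s : ℝ => b + s) 0 := by fun_prop
      have hu0 : (fun s : ℝ => σ * Real.sqrt ((25 - 9 * (b + s) ^ 2) / 16)) 0 = z 0 := by
        simp only [add_zero, hval]
        rw [← hσa]; exact ha
      have hv0 : (fun s : ℝ => b + s) 0 = z 1 := by
        simp only [add_zero]; exact hb
      have hnear : ∀ᶠ s in 𝓝 (0 : ℝ), 9 * (σ * Real.sqrt ((25 - 9 * (b + s) ^ 2) / 16)) ^ 2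
          + 16 * (b + s) ^ 2 < 25 := by
        have hc : ContinuousAt (fun s : ℝ => 9 * (σ * Real.sqrt ((25 - 9 * (b + s) ^ 2) / 16)) ^ 2
          + 16 * (b + s) ^ 2) 0 := by fun_prop
        apply hc.eventually_lt continuousAt_const
        simp only [add_zero, hval]
        rw [← hσa]; exact h1'
      have hsm : ∀ᶠ s in 𝓝 (0 : ℝ), 9 * (b + s) ^ 2 < 25 := by
        have : ContinuousAt (fun s : ℝ => 9 * (b + s) ^ 2) 0 := by fun_prop
        apply this.eventually_lt continuousAt_const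
        simp only [add_zero]; linarith
      have hpos : ∀ s : ℝ, 9 * (b + s) ^ 2 < 25 → 0 ≤ (25 - 9 * (b + s) ^ 2) / 16 := by
        intro s hs; linarith
      have := along z hmin _ _ hcu hcv hu0 hv0 (by
        filter_upwards [hnear, hsm] with s hs hs1
        refine ⟨hs.le, ?_⟩
        rw [mul_pow, hσ2, Real.sq_sqrt (hpos s hs1)]
        linarith)
      obtain ⟨s, hs0, hs1, ⟨hs2, hs3⟩, ⟨hs4, hs5⟩⟩ := small (this.and hsm)
      rw [mul_pow, hσ2, Real.sq_sqrt (hpos s hs3), ← ha, ← hb] at hs2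
      rw [mul_pow, hσ2, Real.sq_sqrt (hpos (-s) hs5), ← ha, ← hb] at hs4
      nlinarith
    · have h2' : 16 * a ^ 2 + 9 * b ^ 2 < 25 := lt_of_le_of_ne h2 e2
      have hcu : ContinuousAt (fun _ : ℝ => a) 0 := by fun_prop
      have hcv : ContinuousAt (fun s : ℝ => b + s) 0 := by fun_prop
      have hn1 : ∀ᶠ s in 𝓝 (0 : ℝ), 9 * a ^ 2 + 16 * (b + s) ^ 2 < 25 := by
        have hc : ContinuousAt (fun s : ℝ => 9 * a ^ 2 + 16 * (b + s) ^ 2) 0 := by fun_prop
        apply hc.eventually_lt continuousAt_const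
        simp only [add_zero]; exact h1'
      have hn2 : ∀ᶠ s in 𝓝 (0 : ℝ), 16 * a ^ 2 + 9 * (b + s) ^ 2 < 25 := by
        have hc : ContinuousAt (fun s : ℝ => 16 * a ^ 2 + 9 * (b + s) ^ 2) 0 := by fun_prop
        apply hc.eventually_lt continuousAt_const
        simp only [add_zero]; exact h2'
      have := along z hmin _ _ hcu hcv ha (by simpa using hb) (by
        filter_upwards [hn1, hn2] with s hs hs1
        exact ⟨hs.le, hs1.le⟩)
      obtain ⟨s, hs0, hs1, hs2, hs3⟩ := small this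
      rw [← ha, ← hb] at hs2 hs3
      nlinarith

theorem locmin_val (z : Fin 2 → ℝ) (hz : z ∈ inst.F) (hmin : IsLocalMinOn inst.f inst.F z) :
    inst.f z = -67 ∨ inst.f z = -61 := by
  obtain ⟨h1, h2⟩ := active z hz hmin
  have hb : z 1 ^ 2 = 1 := by linarith
  have ha : z 0 ^ 2 = 1 := by linarith
  have : (z 1 - 1) * (z 1 + 1) = 0 := by linarith
  rw [inst_f]
  rcases mul_eq_zero.1 this with h | h
  · left
    have : z 1 = 1 := by linarith
    rw [ha, this]; norm_num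
  · right
    have : z 1 = -1 := by linarith
    rw [ha, this]; norm_num

/-- The corner `(1,-1)` is a local nonglobal minimizer. -/
theorem corner : inst.IsLocalNonglobalMinimizer ![1, -1] := by
  have hF : (![1, -1] : Fin 2 → ℝ) ∈ inst.F := by
    rw [mem_F]; simp; norm_num
  refine ⟨hF, ?_, ?_⟩
  · have hc : ∀ᶠ x : Fin 2 → ℝ in 𝓝[inst.F] ![1, -1], x 1 < 0 := by
      apply mem_nhdsWithin_of_mem_nhds
      apply (isOpen_lt (continuous_apply 1) continuous_const).mem_nhds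
      simp
    have hs : ∀ᶠ x : Fin 2 → ℝ in 𝓝[inst.F] ![1, -1], x ∈ inst.F := self_mem_nhdsWithin
    filter_upwards [hc, hs] with x hx hxF
    obtain ⟨h1, h2⟩ := (mem_F x).1 hxF
    rw [inst_f, inst_f]
    have := low_bd_neg (x 0) (x 1) h1 h2 hx.le
    simp
    linarith
  · rintro ⟨-, h⟩
    have h2 : (![1, 1] : Fin 2 → ℝ) ∈ inst.F := by
      rw [mem_F]; simp; norm_num
    have := h _ h2
    rw [inst_f, inst_f] at this
    norm_num at this

theorem kkt : inst.IsKKT ![0, 5 / 4] := by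
  refine ⟨?_, ![103 / 40, 0], ?_, ?_, ?_⟩
  · rw [mem_F]; simp; norm_num
  · intro i; fin_cases i <;> simp; norm_num
  · rw [Fin.forall_fin_two]
    rw [inst_g0, inst_g1]
    simp; norm_num
  · ext i
    fin_cases i <;> simp [inst, Fin.sum_univ_two]; norm_num

theorem glb : IsGLB {r : ℝ | ∃ x, inst.IsLocalNonglobalMinimizer x ∧ r = inst.f x} (-61) := by
  constructor
  · rintro r ⟨x, ⟨hxF, hmin, hng⟩, rfl⟩
    rcases locmin_val x hxF hmin with h | h
    · exfalso
      apply hng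
      refine ⟨hxF, fun y hy => ?_⟩
      rw [h, inst_f]
      obtain ⟨h1, h2⟩ := (mem_F y).1 hy
      exact low_bd _ _ h1 h2
    · rw [h]
  · intro r hr
    apply hr
    refine ⟨_, corner, ?_⟩
    rw [inst_f]
    norm_num

/-- There is an instance of the CDT subproblem in the plane which has a local nonglobal minimizer
and whose infimum `v` of the local nonglobal minimum values is larger than the value of `f` at
some KKT point that is not a global minimizer. -/
theorem result : ∃ P : CDT 2, P.F.Nonempty ∧ (∃ x, P.IsLocalNonglobalMinimizer x) ∧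
    ∃ v : ℝ, IsGLB {r : ℝ | ∃ x, P.IsLocalNonglobalMinimizer x ∧ r = P.f x} v ∧
      ∃ x, P.IsKKT x ∧ ¬ P.IsGlobalMinimizer x ∧ P.f x < v := by
  refine ⟨inst, ⟨_, corner.1⟩, ⟨_, corner⟩, -61, glb, ![0, 5 / 4], kkt, ?_, ?_⟩
  · rintro ⟨-, h⟩
    have h2 : (![1, 1] : Fin 2 → ℝ) ∈ inst.F := by
      rw [mem_F]; simp; norm_num
    have := h _ h2
    rw [inst_f, inst_f] at this
    norm_num at this
  · rw [inst_f]
    norm_num

end Pool.Agent.Results.MP_2e17cf_an.KKTBelowLocal
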